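import Pool.Agent.Results.MP_af1090_al.InfiniteSuperrank

/-! MP_a40872_al, Q1, the case `Malc`: the variety of Malcev algebras has a subvariety of infinite
basic superrank, namely the Lie algebras `L` with `L³L³ = 0`. -/

namespace Pool.Agent.Results.MP_a40872_al.MalcevCase

open Pool.Agent.Q29.SR Pool.Agent.Results.MP_af1090_al.InfiniteSuperrank

universe u

/-- The defining identities of `Malc`: `x² = 0` and
`(xy)(xz) = ((xy)z)x + ((yz)x)x + ((zx)x)y`. -/
def malcSq (F : Type u) [Field F] : Set (NAPoly F) :=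
  {X F 0 * X F 0,
   X F 0 * X F 1 * (X F 0 * X F 2) - (X F 0 * X F 1 * X F 2 * X F 0 +
     X F 1 * X F 2 * X F 0 * X F 0 + X F 2 * X F 0 * X F 0 * X F 1)}

theorem isSubvariety_malcSq (F : Type u) [Field F] [CharZero F] :
    IsSubvariety (lieAN F) (malcSq F) := by
  intro B hB
  obtain ⟨h1, h2, h3⟩ := inVariety_lieAN_iff.mp hB
  have hsq : ∀ x : B.carrier, x * x = 0 := by
    intro x
    have h := h1 x x
    rw [← two_smul F (x * x)] at h
    exact (smul_eq_zero.mp h).resolve_left two_ne_zero
  rintro p (rfl | rfl) v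
  · simpa only [map_mul, lift_X] using hsq _
  · simp only [map_sub, map_add, map_mul, lift_X]
    generalize v 0 = x
    generalize v 1 = y
    generalize v 2 = z
    have neg : ∀ a b : B.carrier, a * b = -(b * a) := fun a b => by
      rw [eq_neg_iff_add_eq_zero]; exact h1 a b
    -- `(xy)(xz) = -(xz)(xy)`, and Jacobi for `xy, z, x`, etc.
    have j1 := h2 (x * y) z x
    have j2 := h2 x y z
    unfold jac at j1 j2
    have e2 : x * y * z * x + y * z * x * x + z * x * y * x = 0 := by
      rw [← add_mul, ← add_mul, j2, zero_mul]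
    have j3 := h2 (z * x) x y
    unfold jac at j3
    -- j1 : (xy)z x + (zx)(xy) + (x(xy)) z = 0 ; j3 : (zx)x y + (xy)(zx) + (y(zx)) x = 0
    have e3 : z * x * x * y = -(x * y * (z * x)) - y * (z * x) * x := by
      have : z * x * x * y + (x * y * (z * x) + y * (z * x) * x) = 0 := by
        rw [← add_assoc]; exact j3
      rw [eq_neg_of_add_eq_zero_left this]; abel
    have e4 : y * (z * x) * x = -(z * x * y * x) := by rw [neg y (z * x), neg_mul]
    have e5 : x * y * (x * z) = -(x * y * (z * x)) := by rw [neg x z, mul_neg]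
    rw [e3, e4, e5]
    have e6 : x * y * z * x + y * z * x * x = -(z * x * y * x) :=
      eq_neg_of_add_eq_zero_left e2
    rw [e6]
    abel

theorem result : ∀ (F : Type u) [Field F] [CharZero F], ∃ S : Set (NAPoly F),
    IsSubvariety S (malcSq F) ∧ ¬ HasFiniteBasicSuperrank S := by
  intro F _ _
  have hne : ∀ K k : ℕ, ¬ IsSubvariety (lieAN F) {detPoly F K k} := by
    intro K k hsub
    exact lift_detPoly_LK (F := F) (K := K) k (hsub ⟨LK F K⟩ LK_inVariety _ rfl _)
  refine ⟨lieAN F, isSubvariety_malcSq F, ?_⟩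
  rintro ⟨A, hfg, hvar⟩
  obtain ⟨r, s, a, b, ha, hb, hgen⟩ := generated_of_isFG A hfg
  have hV : A.envelope.IsIn (lieAN F) := (hvar _).mpr fun f hf => hf
  refine hne (r + 1) ((r + 1) * (r + 1) * s + 1) ?_
  intro B hB f hf
  rw [Set.mem_singleton_iff] at hf
  rw [hf]
  refine (hvar B).mp hB _ ?_
  rw [envelope_satisfies_iff]
  exact envelope_detPoly (isSuper A) ha hb hgen ((envelope_isIn_iff A _).mp hV)

end Pool.Agent.Results.MP_a40872_al.MalcevCase
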